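import Pool.Agent.helper62.RP.Spec

set_option autoImplicit false

/-!
# MP_07c750: row TRM
-/

open Polynomial Filter
open Pool.Agent.QU

namespace Pool.Agent.RP

/-- the permutation matrices -/
noncomputable def TRM_P (N : ℕ) (σ : F2 →* Equiv.Perm (Fin N)) : F2 →* Matrix (Fin N) (Fin N) ℂ where
  toFun w := Matrix.of fun i j => if i = σ w j then 1 else 0
  map_one' := by
    ext i j
    simp [Matrix.one_apply]
  map_mul' x y := by
    ext i j
    simp [Matrix.mul_apply]

lemma TRM_P_apply (N : ℕ) (σ : F2 →* Equiv.Perm (Fin N)) (w : F2) (i j : Fin N) :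
    TRM_P N σ w i j = if i = σ w j then 1 else 0 := rfl

/-- the matrix of an element of the group algebra -/
noncomputable def TRM_M (N : ℕ) (σ : F2 →* Equiv.Perm (Fin N)) :
    MonoidAlgebra ℂ F2 →ₐ[ℂ] Matrix (Fin N) (Fin N) ℂ :=
  MonoidAlgebra.lift ℂ _ F2 (TRM_P N σ)

lemma TRM_M_apply (N : ℕ) (σ : F2 →* Equiv.Perm (Fin N)) (a : MonoidAlgebra ℂ F2) (i j : Fin N) :
    TRM_M N σ a i j = ∑ w ∈ a.coeff.support, a.coeff w * (if i = σ w j then 1 else 0) := by
  unfold TRM_M
  rw [MonoidAlgebra.lift_apply, Finsupp.sum, Matrix.sum_apply]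
  refine Finset.sum_congr rfl fun w _ => ?_
  rw [Matrix.smul_apply, TRM_P_apply, smul_eq_mul]

/-- the augmentation -/
noncomputable def TRM_A : MonoidAlgebra ℂ F2 →ₐ[ℂ] ℂ := MonoidAlgebra.lift ℂ _ F2 (1 : F2 →* ℂ)

lemma TRM_A_apply (a : MonoidAlgebra ℂ F2) : TRM_A a = ∑ w ∈ a.coeff.support, a.coeff w := by
  unfold TRM_A
  rw [MonoidAlgebra.lift_apply, Finsupp.sum]
  simp

lemma TRM_A_adj (a : MonoidAlgebra ℂ F2) : TRM_A (adj a) = star (TRM_A a) := by
  have h1 : TRM_A (adj a) = ∑ w ∈ a.coeff.support, star (a.coeff w) := by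
    unfold adj TRM_A
    rw [map_sum]
    refine Finset.sum_congr rfl fun w _ => ?_
    rw [MonoidAlgebra.lift_single]
    simp
  rw [h1, TRM_A_apply, star_sum]

lemma TRM_A_pev (a : MonoidAlgebra ℂ F2) (h : ℝ[X]) (c : ℝ) (hc : TRM_A a = (c : ℂ)) :
    TRM_A (pev h a) = ((h.eval c : ℝ) : ℂ) := by
  unfold pev
  rw [map_sum]
  have : ∀ i ∈ Finset.range (h.natDegree + 1), TRM_A (((h.coeff i : ℝ) : ℂ) • a ^ i) =
      ((h.coeff i * c ^ i : ℝ) : ℂ) := by
    intro i _
    rw [map_smul, map_pow, hc, smul_eq_mul]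
    push_cast
    rfl
  rw [Finset.sum_congr rfl this, ← Complex.ofReal_sum, Polynomial.eval_eq_sum_range]

lemma TRM_M_pev (N : ℕ) (σ : F2 →* Equiv.Perm (Fin N)) (a : MonoidAlgebra ℂ F2) (h : ℝ[X]) :
    TRM_M N σ (pev h a) =
      ∑ i ∈ Finset.range (h.natDegree + 1), ((h.coeff i : ℝ) : ℂ) • (TRM_M N σ a) ^ i := by
  unfold pev
  rw [map_sum]
  refine Finset.sum_congr rfl fun i _ => ?_
  rw [map_smul, map_pow]

lemma TRM_trace_P (N : ℕ) (σ : F2 →* Equiv.Perm (Fin N)) (w : F2) :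
    (TRM_P N σ w).trace = (fx (σ w) : ℂ) := by
  unfold Matrix.trace fx
  have : ∀ i : Fin N, (TRM_P N σ w).diag i = if σ w i = i then (1 : ℂ) else 0 := by
    intro i
    rw [Matrix.diag_apply, TRM_P_apply]
    by_cases hi : σ w i = i
    · rw [if_pos hi, if_pos hi.symm]
    · rw [if_neg hi, if_neg (fun h => hi h.symm)]
  rw [Finset.sum_congr rfl (fun i _ => this i), Finset.sum_ite, Finset.sum_const_zero, add_zero,
    Finset.sum_const, nsmul_eq_mul, mul_one]

lemma TRM_trace (N : ℕ) (σ : F2 →* Equiv.Perm (Fin N)) (b : MonoidAlgebra ℂ F2) :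
    (TRM_M N σ b).trace = ∑ w ∈ b.coeff.support, b.coeff w * (fx (σ w) : ℂ) := by
  unfold TRM_M
  rw [MonoidAlgebra.lift_apply, Finsupp.sum, Matrix.trace_sum]
  refine Finset.sum_congr rfl fun w _ => ?_
  rw [Matrix.trace_smul, TRM_trace_P, smul_eq_mul]

lemma TRM_tau (N : ℕ) (σ : F2 →* Equiv.Perm (Fin N)) (b : MonoidAlgebra ℂ F2) :
    tau N b σ = ((TRM_M N σ b).trace).re - (TRM_A b).re := by
  rw [TRM_trace, TRM_A_apply, Complex.re_sum, Complex.re_sum, ← Finset.sum_sub_distrib]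
  unfold tau
  refine Finset.sum_congr rfl fun w _ => ?_
  have : (b.coeff w * (fx (σ w) : ℂ)).re = (b.coeff w).re * (fx (σ w) : ℝ) := by
    rw [Complex.mul_re, Complex.natCast_re, Complex.natCast_im, mul_zero, sub_zero]
  rw [this]
  ring

lemma TRM_rep (N : ℕ) (σ : F2 →* Equiv.Perm (Fin N)) (a : MonoidAlgebra ℂ F2)
    (v : EuclideanSpace ℂ (Fin N)) :
    Matrix.toEuclideanLin (TRM_M N σ a) v = rep (permRep σ) a v := by
  ext i
  have h1 : (Matrix.toEuclideanLin (TRM_M N σ a) v) i = ((TRM_M N σ a).mulVec v.ofLp) i := rfl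
  have h2 : (rep (permRep σ) a v) i =
      ∑ w ∈ a.coeff.support, a.coeff w * v ((σ w)⁻¹ i) := by
    unfold rep
    rw [sum_apply]
    have : ∀ (s : Finset F2) (f : F2 → EuclideanSpace ℂ (Fin N)),
        (∑ w ∈ s, f w) i = ∑ w ∈ s, f w i := by
      intro s f
      induction s using Finset.induction_on with
      | empty => simp
      | insert x s hx ih => rw [Finset.sum_insert hx, Finset.sum_insert hx, ← ih]; rfl
    rw [this]
    refine Finset.sum_congr rfl fun w _ => ?_
    rfl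
  rw [h1, h2]
  unfold Matrix.mulVec dotProduct
  have h3 : ∀ j ∈ (Finset.univ : Finset (Fin N)), TRM_M N σ a i j * v.ofLp j =
      ∑ w ∈ a.coeff.support, a.coeff w * (if j = (σ w)⁻¹ i then v.ofLp j else 0) := by
    intro j _
    rw [TRM_M_apply, Finset.sum_mul]
    refine Finset.sum_congr rfl fun w _ => ?_
    by_cases hj : i = σ w j
    · have : j = (σ w)⁻¹ i := by rw [hj]; simp
      rw [if_pos hj, if_pos this]
      ring
    · have : ¬ j = (σ w)⁻¹ i := by
        intro h0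
        exact hj (by rw [h0]; simp)
      rw [if_neg hj, if_neg this]
      ring
  rw [Finset.sum_congr rfl h3, Finset.sum_comm]
  refine Finset.sum_congr rfl fun w _ => ?_
  rw [← Finset.mul_sum, Finset.sum_ite_eq']
  simp

theorem TRM (h1 : LAL_stmt) (h2 : REP_stmt) : TRM_stmt := by
  intro N a K H r h hN hadj hK hr h0 hH hr1 σ
  set A := TRM_M N σ a with hA
  have hc : TRM_A a = (((TRM_A a).re : ℝ) : ℂ) := by
    have : star (TRM_A a) = TRM_A a := by rw [← TRM_A_adj, hadj]
    exact (Complex.conj_eq_iff_re.1 this).symm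
  set c : ℝ := (TRM_A a).re with hcdef
  have hrep := fun (v w : EuclideanSpace ℂ (Fin N)) =>
    h2 F2 (EuclideanSpace ℂ (Fin N)) (permRep σ) a a v w
  have hHerm : A.IsHermitian := by
    rw [← Matrix.isSymmetric_toEuclideanLin_iff]
    intro v w
    rw [TRM_rep, TRM_rep]
    have := (hrep v w).2.2.2.2.2.1
    rw [hadj] at this
    exact this
  have hone : A.mulVec (fun _ => 1) = fun _ => (c : ℂ) := by
    ext i
    unfold Matrix.mulVec dotProduct
    have h3 : ∀ j ∈ (Finset.univ : Finset (Fin N)), A i j * 1 =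
        ∑ w ∈ a.coeff.support, (if j = (σ w)⁻¹ i then a.coeff w else 0) := by
      intro j _
      rw [hA, TRM_M_apply, mul_one]
      refine Finset.sum_congr rfl fun w _ => ?_
      by_cases hj : i = σ w j
      · have : j = (σ w)⁻¹ i := by rw [hj]; simp
        rw [if_pos hj, if_pos this]
        ring
      · have : ¬ j = (σ w)⁻¹ i := by
          intro h0
          exact hj (by rw [h0]; simp)
        rw [if_neg hj, if_neg this]
        ring
    rw [Finset.sum_congr rfl h3, Finset.sum_comm, ← hc, TRM_A_apply]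
    refine Finset.sum_congr rfl fun w _ => ?_
    rw [Finset.sum_ite_eq']
    simp
  have hnorm : ∀ v : EuclideanSpace ℂ (Fin N), ‖Matrix.toEuclideanLin A v‖ ≤ K * ‖v‖ := by
    intro v
    rw [hA, TRM_rep]
    refine (hrep v v).2.2.2.2.1.trans ?_
    exact mul_le_mul_of_nonneg_right hK (norm_nonneg _)
  obtain ⟨ev, hev, htr, hnv⟩ := h1 N A c K h hN hHerm hone hnorm h0
  have htau : tau N (pev h a) σ = ∑ i, h.eval (ev i) := by
    rw [TRM_tau, TRM_M_pev, htr, TRM_A_pev a h c hc, Complex.ofReal_re, Complex.ofReal_re]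
    ring
  have hpos : ∀ i, 0 ≤ h.eval (ev i) := fun i => (hH _ (hev i)).1
  rw [htau]
  refine ⟨Finset.sum_nonneg fun i _ => hpos i, ?_, ?_⟩
  · calc ∑ i, h.eval (ev i) ≤ ∑ _i : Fin N, H := Finset.sum_le_sum fun i _ => (hH _ (hev i)).2
      _ = H * N := by
        rw [Finset.sum_const, Finset.card_univ, Fintype.card_fin, nsmul_eq_mul, mul_comm]
  · rintro ⟨v, hv0, hv⟩
    by_cases hall : ∀ i, |ev i| ≤ r
    · exfalso
      have := hnv v hv0 r hall
      rw [hA, TRM_rep] at this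
      linarith
    · push Not at hall
      obtain ⟨i, hi⟩ := hall
      calc (1 : ℝ) ≤ h.eval (ev i) := hr1 _ hi.le (hev i)
        _ ≤ ∑ i, h.eval (ev i) :=
          Finset.single_le_sum (f := fun i => h.eval (ev i)) (fun i _ => hpos i)
            (Finset.mem_univ i)

end Pool.Agent.RP
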